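import Pool.Agent.helper12.OB.FinH

/-!
# Dade's conjecture modulo 2 and 3, summed over the defects

Let `(p, e) = (2, 4)` or `(3, 3)`, `G` a finite group with `O_p(G) = 1` and `B` a `p`-block of `G` with defect group
`D ≠ 1`. Suppose that no element `y ∈ D` of order `p e` with `y ^ e ∈ Z(D)` is conjugate in `D` to all its powers `y ^ m`
with `m ≡ 1` modulo `p`; that is, for `p = 2` no `y` of order `8` is conjugate in `D` to `y ^ 3`, `y ^ 5` and `y ^ 7`, for
`p = 3` no `y` of order `9` is conjugate in `D` to `y ^ 4`. (For the principal 2-block it is enough that no such `y` is a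
product of two elements `r, s ∈ D` with `r ^ 2 = s ^ 2 = 1`.) Or suppose, more generally, that for some `g ∈ G` with
`omega_B(g) ∉ M` no `e`-th root `b` of `g` in `G` is conjugate in `G` to all generators `b ^ m` of `⟨b⟩` with `m ≡ 1`
modulo the order of `g`. (If `p = 2` and `B` and `g` are real it is enough that no such `b` is a product of two elements
`r, s ∈ G` with `r ^ 2 = s ^ 2 = 1`.) Let `E` be a finite group with normal subgroup `G`, `W` a `p`-subgroup of `E / G`
and `U ≤ W`. Then the sum, over all `d` and all `V ≤ E / G` with `V ∩ W = U`, of the alternating sums of the invariant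
conjecture is divisible by `p`.

* `E = G`: the alternating sum of the numbers `k(N_G(C), B)` over the classes of radical chains is divisible by `p`
  (the blockwise Alperin weight conjecture in the form of Knörr and Robinson, modulo `p`).
* `W = E / G` a `p`-group: the sum over `d` of the alternating sums of the conjecture is divisible by `p` for every `U`.
* `W = U`: the sum over all `d` and all `V ≥ U`.

Sketch of the proof. Let `F = ⟨a, b | a ^ p = 1⟩`, `c = (a b)⁻¹`, and let `F_e` be the kernel of the homomorphism of `F`
to the cyclic group of order `e` with `a ↦ 2`, `b ↦ 1` (`p = 2`) or `a, b ↦ 1` (`p = 3`). `F_e` is the fundamental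
group of a torus with two punctures, with the loops `b ^ e` and `c ^ e`. Let `w` be the indicator function of the class
of `g`, `ζ` the idempotent of `B` and `W(f)` the alternating number of the chains of `p`-subgroups of `G` which are
normalised by the image of `f`. Let `T` be the sum of `w (f (b ^ e)) ζ (f (c ^ e)) W(f) / |G|` over all homomorphisms
`f` from `F_e` to `G`.

* By Frobenius's formula and Brauer's induced blocks `T ≡ omega_B(g) ∑ (-1)^|C| k(N_G(C), B)` modulo `M`.
* `W(f)` is divisible by the `p`-part of `|C_G(f)|`; the classes of the `f` which are not fixed under `F / F_e` cancel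
  modulo `p`, and for a subgroup `F₁` of index `p` and a homomorphism `f` of `F₁` whose class is fixed the sum of `W`
  over the extensions of `f` is congruent to `W(f)` modulo `p |C_G(f)|_p` (by counting `p`-elements, Frobenius's theorem).
  So `T` is congruent to the same sum over the homomorphisms `f` from `F` to `G`.
* Let `t(s)` be the part of this sum which belongs to the `f` with `f (b)` conjugate to `s`, so `s ^ e` is conjugate to
  `g`. By Frobenius's formula and Galois conjugation of the characters `t(s) = t(s ^ m)` for all `m ≡ 1` modulo the
  order of `g` which are `1` modulo the `p`-regular part of `|G|`. These `m` form a `p`-group; the classes of the `s` which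
  it does not fix cancel modulo `p`.
* If `p = 2` and `B`, `g` are real: the reflection `a ↦ a⁻¹`, `b ↦ b⁻¹` of `F` acts on the remaining `f`, and those
  whose class is fixed extend to the group with an element `h`, `h ^ 2 = 1`, which inverts `s = f (b)`; so `s = (s h) h`.
* If `D` is a Sylow `p`-subgroup of `C_G(x)` as in the definition of defect groups and `z ∈ Z(D)` has order `p`, then
  `omega_B(z x)` is `omega_B(x)` times an integer prime to `p`, modulo `M`, and an `e`-th root of `z x` in `G` which is
  conjugate to its powers as above gives a `y ∈ D` with `y ^ e = z` which is conjugate in `D` to its powers (Sylow). For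
  the principal 2-block `x = 1`, and if the root is a product of two involutions then so is `y` in `D`.
* For `E`: a `p`-subgroup of `E / G` which fixes `B` acts on the `G`-classes of the pairs of a radical chain `C` and a
  character `ψ` of `N_G(C)` with `b(ψ)^G = B`, and the number of the fixed classes is congruent modulo `p` to the number
  of all classes; Möbius inversion over the subgroups of `W`.
-/

set_option autoImplicit false

open Pool.Agent.helper58.DC Pool.Agent.M23h

namespace Pool.Agent.Results.MP_baa4d7_al.ModTwoThree

theorem result (p e : ℕ) (hpe : p = 2 ∧ e = 4 ∨ p = 3 ∧ e = 3)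
    (M : Ideal (integralClosure ℤ ℂ)) (hM : M.IsMaximal) (hp : (p : integralClosure ℤ ℂ) ∈ M)
    (G : Type) [Group G] [Finite G] (hG : IsOp p (⊤ : Subgroup G) ⊥) (χ : G → ℂ) (hχ : χ ∈ Irr G)
    (h : Cond p e M χ) (E A : Type) [Group E] [Group A] [Finite E] (X : Extension G E A)
    (W : Subgroup A) (hW : IsPGroup p W) (U : Subgroup A) (hU : U ≤ W) :
    (p : ℤ) ∣ ∑ᶠ d : ℤ, ∑ᶠ V : {V : Subgroup A // V ⊓ W = U}, altSum X p M χ d V.1 :=
  Pool.Agent.OB.FinH_main p e hpe M hM hp G hG χ hχ h E A X W hW U hU

end Pool.Agent.Results.MP_baa4d7_al.ModTwoThree
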