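import Pool.Agent.helper64.NQ.All

/-!
# Dade's invariant conjecture for nilpotent `E / G` and the extendible characters

`p` is a prime and `𝒳` is a class of groups closed under subgroups, homomorphic images, direct
products and central extensions by groups of order prime to `p`, for example the class of all groups or
of all `p`-solvable groups.

The invariant conjecture for all `E` in `𝒳` such that `E / G` is an extension of a `p`-group by a nilpotent
group is equivalent to each of two statements about `E / G = C_n × C_n`, `n` squarefree and prime to `p`
(`n = 1` is the ordinary conjecture), and about the pairs `(C, ψ)`, `C` a radical chain and `ψ` an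
irreducible character of `N_G(C)` over the block, whose stabiliser `N_E(C, ψ)` covers `E / G`: the
alternating number of those with `ψ` extendible to `N_E(C, ψ)` is zero for every defect; the alternating
number of those with exactly one irreducible character of `N_E(C, ψ)` over `ψ` is zero.

Sketch of the proof. Let `A = E / G` be reduced in the sense of `ReducedQuotients` (the minimal
counterexamples for a class closed under subgroups and images are reduced). For nilpotent `A` this means
that `A` is the direct product of the groups `C_r × C_r` for the primes `r` in a finite set, `p` not among
them (modules NZ1, NZA, NZB, NZC, NZ2): every central subgroup of prime order `r` has exactly `r`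
complements. Let `n` be the product of these primes. For a pair `x = (C, ψ)` let `V x ≤ A` be the image of its
stabiliser, and let `ω x` be the commutator pairing on `V x` of the cocycle of `ψ`, an alternating
bicharacter. For `T, U ≤ A` of coprime orders the relation RLBX of `ReducedQuotients`, for the inverse image
of `T U` in `E` and the normal subgroup `U`, says: the sum over the pairs with `T ≤ V x` of `± |N_G(C)|` times
the sum of `ω x (y, z)` over all `y, z ∈ U ∩ V x` is zero (the number of the irreducible projective
characters of the abelian group `U ∩ V x` is the order of the radical of the pairing). By inclusion and
exclusion over the subgroups of `U` the sum over the pairs with `T U ≤ V x` of `± |N_G(C)| J_U(ω x)` is zero,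
`J_U` the sum of the pairing over the pairs `(y, z)` which generate `U` (the difference of the two is what
makes proper subgroups of `A` disappear). For `U = C_m × C_m`, `m` dividing `n`, `J_U` is the product over `r`
dividing `m` of `(r² - 1)(r² - r)` if the pairing is trivial on the part of order `r²`, and of `-(r³ - r)` if
not. The relations for all `m > 1` and the expansion of a product over the primes dividing `n` give:
if the conjecture is true for the proper subgroups of `A`, the alternating sum for `U = A` is `n` times
the alternating number of the pairs with `ω x` trivial (`ψ` extends), and `n / φ(n)` times that of the
pairs with `ω x` nondegenerate (exactly one character over `ψ`).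
-/

set_option autoImplicit false

open Pool.Agent.helper58.DC Pool.Agent.DI Pool.Agent.DR Pool.Agent.NQ

namespace Pool.Agent.Results.MP_baa4d7_al.NilpotentQuotients

theorem result (p : ℕ) [Fact p.Prime] (M : Ideal (integralClosure ℤ ℂ)) (hM : M.IsMaximal)
    (hp : (p : integralClosure ℤ ℂ) ∈ M) (𝒳 : (E : Type) → [Group E] → Prop) (h𝒳 : ClX 𝒳)
    (hPr : PrX 𝒳) (hCe : CeX p 𝒳) :
    (NilX p M 𝒳 ↔ ExtX p M 𝒳) ∧ (NilX p M 𝒳 ↔ RamX p M 𝒳) :=
  All.nFIN p M hM hp 𝒳 h𝒳 hPr hCe

end Pool.Agent.Results.MP_baa4d7_al.NilpotentQuotients
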