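import Pool.Agent.helper22.PD.Final

set_option autoImplicit false

/-!
# Prime solutions of `a p - b q = c` for a positive proportion of the pairs `(a, b)`, at a
# prescribed height

Let `k ≥ 2` and let `c ≠ 0` have no prime factor below `k` (so `c = ± 1` is allowed for every `k`
and every `c ≠ 0` is allowed for `k = 2`).  For all large `X` and every height `Y` with
`X ^ κ ≤ Y ≤ X ^ (k - 1/2)`, `κ > 1` fixed, the pairs `(a, b) ∈ [1, X]²` for which the triple
`a, b, c` is pairwise coprime and not all odd and `a p - b q = c` has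
`≫ (n / φ(n)) X Y / (a b (log X)²)`, `n = a b |c|`, solutions in primes `p, q > Y` with
`a p, b q ≤ X Y` (the order of magnitude that Hardy and Littlewood predict) make up a positive
proportion of `[1, X]²` in the sense of the measure `1/(a b)`.

Proof.  Take `k` shifts `x ∈ S` such that `y - x` divides `x` and is prime to `c`
for `x < y` in `S`, and `M` the product of all differences.  The primes `p` in `(Y, X Y / R]` have
reciprocal sum `> 1/k` (Mertens), and each of them divides about `T/p` of the numbers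
`n x t = M c t + M + c x`, `t ≤ T`.  So for `≫ T` of the `t` two of the numbers `n x t`, `n y t`
have such a prime factor; dividing by `d = y - x` gives `a p - b q = c` with `a, b ≤ X`.  Each pair
`(a, b)` has `≪ (a/φ(a)) (b/φ(b)) X Y / (a b (log X)²)` solutions by Brun's sieve, and
`∑ (a/φ(a))² / a ≪ log X`; Cauchy-Schwarz finishes the proof.
-/

open Pool.Agent.helper22.PD

namespace Pool.Agent.Results.MP_bf63dc_nt.PairDensity

/-- A positive proportion of the pairs `(a, b)` is good at every height in the range. -/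
theorem result (k : ℕ) (hk : 2 ≤ k) (c : ℤ) (hc : c ≠ 0)
    (hck : ∀ l : ℕ, l.Prime → (l : ℤ) ∣ c → k ≤ l) (κ : ℝ) (hκ : 1 < κ) :
    ∃ η δ : ℝ, 0 < η ∧ 0 < δ ∧ ∃ X₀ : ℕ, ∀ X ≥ X₀, ∀ Y : ℕ, (X : ℝ) ^ κ ≤ Y →
      (Y : ℝ) ≤ (X : ℝ) ^ ((k : ℝ) - 1 / 2) →
      δ * Real.log X ^ 2 ≤ ∑ z ∈ goodPairs c η X Y, 1 / ((z.1 : ℝ) * z.2) :=
  main k hk c hc hck κ hκ

end Pool.Agent.Results.MP_bf63dc_nt.PairDensity
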